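import Pool.Agent.V11316.P9c

set_option autoImplicit false

/-!
# `S_p(q) ≡ -c_p q (1-q)² [p]⁴ Φ_{p²}(q) (mod Φ_{p²}(q) [p]⁵)` for every prime `p`
-/

namespace Pool.Agent.Results.MP_9fe52c_nt.ModPhiFive

open Polynomial Finset

noncomputable section

/-- the indeterminate `q` -/
def q : RatFunc ℚ := RatFunc.X

/-- the `q`-integer `[m] = (1 - q^m)/(1 - q)` -/
def qint (m : ℕ) : RatFunc ℚ := (1 - q ^ m) / (1 - q)

/-- the `q`-shifted factorial `(a;r)_j = ∏_{i<j} (1 - a r^i)` -/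
def poch (a r : RatFunc ℚ) (j : ℕ) : RatFunc ℚ := ∏ i ∈ range j, (1 - a * r ^ i)

/-- `S_p(q) = ∑_{0 ≤ j ≤ p-1} [2(p+1)j+1] ((q;q^{p+1})_j/(q^{p+1};q^{p+1})_j)^{2(p+1)} q^{(p²-1)j}` -/
def S (p : ℕ) : RatFunc ℚ :=
  ∑ j ∈ range p, qint (2 * (p + 1) * j + 1) *
    (poch q (q ^ (p + 1)) j / poch (q ^ (p + 1)) (q ^ (p + 1)) j) ^ (2 * (p + 1)) *
      q ^ ((p ^ 2 - 1) * j)

/-- `c_p = p(p-1)(p+1)²(2p+1)/72` -/
def c (p : ℕ) : ℚ := ((p : ℚ) * (p - 1) * (p + 1) ^ 2 * (2 * p + 1)) / 72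

/-- the polynomial `[n] = 1 + q + ⋯ + q^{n-1}` -/
def qpoly (n : ℕ) : ℚ[X] := ∑ i ∈ range n, X ^ i

/-- a polynomial as a rational function -/
def toRat (P : ℚ[X]) : RatFunc ℚ := algebraMap ℚ[X] (RatFunc ℚ) P

/-- `A ≡ B (mod f)`: `A - B = P/Q` with `Q` coprime to `f` and `f ∣ P` -/
def CongMod (f : ℚ[X]) (A B : RatFunc ℚ) : Prop :=
  ∃ P Q : ℚ[X], Q ≠ 0 ∧ IsCoprime Q f ∧ f ∣ P ∧ A - B = toRat P / toRat Q

/-- For every prime `p` the congruence of the question holds. -/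
theorem result (p : ℕ) (hp : p.Prime) :
    CongMod (cyclotomic (p ^ 2) ℚ * qpoly p ^ 5) (S p)
      (-(toRat (C (c p)) * q * (1 - q) ^ 2 * qint p ^ 4 * toRat (cyclotomic (p ^ 2) ℚ))) := by
  have h := V11316.P9.final hp
  have hS : S p = (1 - V11307.Q.q)⁻¹ * V11316.P9.S0 (p - 1) := by
    obtain ⟨m, rfl⟩ : ∃ m, p = m + 1 := ⟨p - 1, by have := hp.two_le; omega⟩
    rw [S, V11316.P9.S0, mul_sum]
    refine sum_congr rfl fun k _ => ?_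
    change (1 - q ^ (2 * (m + 1 + 1) * k + 1)) / (1 - q) *
      (poch q (q ^ (m + 1 + 1)) k / poch (q ^ (m + 1 + 1)) (q ^ (m + 1 + 1)) k) ^
        (2 * (m + 1 + 1)) * q ^ (((m + 1) ^ 2 - 1) * k) = (1 - q)⁻¹ *
      ((1 - q ^ (2 * (m + 1 + 1) * k + 1)) *
      (poch q (q ^ (m + 1 + 1)) k / poch (q ^ (m + 1 + 1)) (q ^ (m + 1 + 1)) k) ^
        (2 * (m + 1 + 1)) * q ^ (((m + 1) ^ 2 - 1) * k))
    rw [div_eq_mul_inv (1 - q ^ (2 * (m + 1 + 1) * k + 1))]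
    ring
  rw [← hS] at h
  set x : RatFunc ℚ := S p -
    (-(toRat (C (c p)) * q * (1 - q) ^ 2 * qint p ^ 4 * toRat (cyclotomic (p ^ 2) ℚ))) with hx
  have h' : cyclotomic (p ^ 2) ℚ * qpoly p ^ 5 ∣ x.num := h
  refine ⟨x.num, x.denom, x.denom_ne_zero, ?_, h', ?_⟩
  · exact ((RatFunc.isCoprime_num_denom _).of_isCoprime_of_dvd_left h').symm
  · exact (RatFunc.num_div_denom x).symm

end

end Pool.Agent.Results.MP_9fe52c_nt.ModPhiFive
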